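import Pool.Agent.H.MP_b39e30_al.A

set_option autoImplicit false

namespace Pool.Agent.H.MP_5f1296_al

open Subgroup Pool.Agent.H.MP_a1472e_al
open scoped commutatorElement

variable {G : Type} [Group G]

theorem seq [Countable G] (h : Good (Set.univ : Set G)) : ∃ d : ℕ → Subgroup G, d 0 = ⊥ ∧
    (∀ k, d k ≤ d (k + 1) ∧ d (k + 1) ≤ normalizer (d k : Set G) ∧
      ⁅d (k + 1), d (k + 1)⁆ ≤ d k) ∧ ∀ g, ∃ k, g ∈ d k := by
  obtain ⟨f, hf⟩ := exists_surjective_nat G
  let F : ℕ → Subgroup G := fun n => closure (f '' Set.Iio n)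
  have mF : ∀ n, F n ≤ F (n + 1) := fun n =>
    closure_mono (Set.image_mono (Set.Iio_subset_Iio (Nat.le_succ n)))
  have hh : ∀ n, ∃ c, (F n).lowerCentralSeries c = ⊥ := fun n =>
    h _ ((Set.finite_Iio n).image f) (Set.subset_univ _)
  choose c hc using hh
  let D : ℕ × ℕ → Subgroup G := fun p => F p.1 ⊔ (F (p.1 + 1)).lowerCentralSeries p.2
  let t : ℕ × ℕ → ℕ × ℕ := fun p => if p.2 = 0 then (p.1 + 1, c (p.1 + 2)) else (p.1, p.2 - 1)
  have e : ∀ n, D (n, c (n + 1)) = F n := fun n => by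
    simp only [D, hc, sup_bot_eq]
  have e0 : ∀ n, D (n, 0) = F (n + 1) := fun n => sup_eq_right.2 (mF n)
  refine ⟨fun k => D (t^[k] (0, c 1)), (e 0).trans (by simp [F]), fun k => ?_, fun g => ?_⟩
  · simp only [Function.iterate_succ_apply']
    obtain ⟨n, j⟩ := t^[k] (0, c 1)
    cases j with
    | zero =>
      rw [show t (n, 0) = (n + 1, c (n + 2)) from rfl, e, e0]
      exact ⟨le_rfl, le_normalizer, commutator_le_self _⟩
    | succ j =>
      rw [show t (n, j + 1) = (n, j) from rfl]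
      have nm := lcs_norm (mF n) j
      refine ⟨sup_le_sup_left (Subgroup.lowerCentralSeries_antitone _ (Nat.le_succ j)) _, nm, ?_⟩
      refine comm_sup (le_sup_left.trans nm) (le_sup_right.trans nm)
        (le_normalizer_iff_commutator_le_right.1 nm |>.trans' (commutator_mono le_rfl le_sup_left))
        ((commutator_comm_le _ _).trans ?_)
      exact (commutator_mono le_rfl (sup_le (mF n) (lowerCentralSeries_le_self _ _))).trans
        le_sup_right
  · have h1 : ∀ j n k, t^[k] (0, c 1) = (n, j) → ∃ k', t^[k'] (0, c 1) = (n + 1, c (n + 2)) := by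
      intro j
      induction j with
      | zero => exact fun n k h => ⟨k + 1, by rw [Function.iterate_succ_apply', h]; rfl⟩
      | succ j ih => exact fun n k h => ih n (k + 1) (by rw [Function.iterate_succ_apply', h]; rfl)
    have h2 : ∀ n, ∃ k, t^[k] (0, c 1) = (n, c (n + 1)) := fun n => by
      induction n with
      | zero => exact ⟨0, rfl⟩
      | succ n ih => exact ih.elim fun k hk => h1 _ n k hk
    obtain ⟨n, rfl⟩ := hf g
    obtain ⟨k, hk⟩ := h2 (n + 1)
    exact ⟨k, by simp only [hk, e]; exact subset_closure ⟨n, by simp, rfl⟩⟩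

theorem sn [Countable G] (h : Good (Set.univ : Set G)) :
    ∃ (β : Ordinal.{0}) (S : Ordinal.{0} → Subgroup G), S 0 = ⊥ ∧ S β = ⊤ ∧
      (∀ α < β, S α ≤ S (Order.succ α) ∧
        (∀ g ∈ S (Order.succ α), ∀ h ∈ S α, g * h * g⁻¹ ∈ S α) ∧
        (∀ x ∈ S (Order.succ α), ∀ y ∈ S (Order.succ α), x * y * x⁻¹ * y⁻¹ ∈ S α)) ∧
      (∀ l ≤ β, Order.IsSuccLimit l → S l = ⨆ (α : Ordinal.{0}) (_ : α < l), S α) := by
  obtain ⟨d, h0, h1, h2⟩ := seq h
  have hm : Monotone d := monotone_nat_of_le_succ fun k => (h1 k).1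
  let S : Ordinal.{0} → Subgroup G := fun γ => ⨆ (n : ℕ) (_ : (n : Ordinal.{0}) ≤ γ), d n
  have e : ∀ m : ℕ, S m = d m := fun m =>
    le_antisymm (iSup₂_le fun n hn => hm (by simpa using hn)) (le_iSup₂_of_le m le_rfl le_rfl)
  have e' : S Ordinal.omega0 = ⊤ := eq_top_iff.2 fun g _ => (h2 g).elim fun k hk =>
    le_iSup₂_of_le (f := fun (n : ℕ) (_ : (n : Ordinal.{0}) ≤ Ordinal.omega0) => d n) k
      (Ordinal.natCast_lt_omega0 k).le le_rfl hk
  refine ⟨Ordinal.omega0, S, (e 0).trans h0, e', fun α hα => ?_, fun l hl hl' => ?_⟩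
  · obtain ⟨n, rfl⟩ := Ordinal.lt_omega0.1 hα
    rw [Order.succ_eq_add_one, ← Nat.cast_add_one, e, e]
    exact ⟨(h1 n).1, le_normalizer_iff.1 (h1 n).2.1, commutator_le.1 (h1 n).2.2⟩
  · rw [le_antisymm hl (Ordinal.omega0_le_of_isSuccLimit hl'), e', eq_comm]
    refine eq_top_iff.2 fun g _ => (h2 g).elim fun k hk => ?_
    exact le_iSup₂_of_le (f := fun (α : Ordinal.{0}) (_ : α < Ordinal.omega0) => S α) k
      (Ordinal.natCast_lt_omega0 k) (e k).ge hk

end Pool.Agent.H.MP_5f1296_al
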